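import Pool.Agent.Helper19.HN.St

/-! # HN, module CNV: the converse -/

namespace Pool.Agent.Helper13.HN.CNV

open Ordinal Cardinal ZFSet Order Pool.Agent.Helper73.HODC Pool.Agent.Helper73.HM
open Pool.Agent.Helper73.HE Pool.Agent.Helper73.HU Pool.Agent.Helper19.HN

/-- transitive classes -/
def TrM (M : Set ZFSet.{0}) : Prop := ∀ x ∈ M, ∀ y ∈ x, y ∈ M

/-- absolute between transitive classes -/
def DM (P : (ℕ → ZFSet.{0}) → Prop) : Prop :=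
  ∃ φ : Fm, ∀ M, TrM M → ∀ v : ℕ → ZFSet.{0}, (∀ n, v n ∈ M) → (Sat M φ v ↔ P v)

theorem DM.mem (i j : ℕ) : DM (fun v => v i ∈ v j) := ⟨.mem i j, fun _ _ _ _ => Iff.rfl⟩

theorem DM.eq (i j : ℕ) : DM (fun v => v i = v j) := ⟨.eq i j, fun _ _ _ _ => Iff.rfl⟩

theorem DM.congr {P Q : (ℕ → ZFSet.{0}) → Prop} (h : DM P) (h' : ∀ v, P v ↔ Q v) : DM Q := by
  obtain ⟨φ, h⟩ := h
  exact ⟨φ, fun M hM v hv => (h M hM v hv).trans (h' v)⟩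

theorem DM.not {P : (ℕ → ZFSet.{0}) → Prop} (h : DM P) : DM (fun v => ¬ P v) := by
  obtain ⟨φ, h⟩ := h
  exact ⟨.neg φ, fun M hM v hv => not_congr (h M hM v hv)⟩

theorem DM.and {P Q : (ℕ → ZFSet.{0}) → Prop} (h : DM P) (h' : DM Q) :
    DM (fun v => P v ∧ Q v) := by
  obtain ⟨φ, h⟩ := h
  obtain ⟨ψ, h'⟩ := h'
  exact ⟨.and φ ψ, fun M hM v hv => and_congr (h M hM v hv) (h' M hM v hv)⟩

theorem DM.or {P Q : (ℕ → ZFSet.{0}) → Prop} (h : DM P) (h' : DM Q) :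
    DM (fun v => P v ∨ Q v) :=
  (h.not.and h'.not).not.congr fun v => by tauto

theorem DM.imp {P Q : (ℕ → ZFSet.{0}) → Prop} (h : DM P) (h' : DM Q) :
    DM (fun v => P v → Q v) :=
  (h.and h'.not).not.congr fun v => by tauto

theorem DM.ball {Q : ZFSet.{0} → (ℕ → ZFSet.{0}) → Prop}
    (h : DM (fun v => Q (v 0) (fun n => v (n + 1)))) (i : ℕ) :
    DM (fun v => ∀ x, x ∈ v i → Q x v) := by
  obtain ⟨φ, h⟩ := h
  refine ⟨.all (.neg (.and (.mem 0 (i + 1)) (.neg φ))), fun M hM v hv => ?_⟩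
  have h1 : ∀ x ∈ M, (Sat M φ (cons x v) ↔ Q x v) := fun x hx =>
    h M hM (cons x v) (fun n => by
      cases n with
      | zero => exact hx
      | succ n => exact hv n)
  constructor
  · intro h2 x hx
    have hxM : x ∈ M := hM _ (hv i) x hx
    by_contra h3
    exact h2 x hxM ⟨hx, fun h4 => h3 ((h1 x hxM).1 h4)⟩
  · intro h2 x hx h3
    exact h3.2 ((h1 x hx).2 (h2 x h3.1))

theorem DM.bex {Q : ZFSet.{0} → (ℕ → ZFSet.{0}) → Prop}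
    (h : DM (fun v => Q (v 0) (fun n => v (n + 1)))) (i : ℕ) :
    DM (fun v => ∃ x, x ∈ v i ∧ Q x v) :=
  (DM.ball (Q := fun x v => ¬ Q x v) h.not i).not.congr fun v => by
    push Not
    rfl

/-- `v i = {v j, v k}` -/
theorem dm_upair (i j k : ℕ) : DM (fun v => v i = {v j, v k}) := by
  refine (((DM.mem j i).and (DM.mem k i)).and (DM.ball (Q := fun w v => w = v j ∨ w = v k)
    ((DM.eq 0 (j + 1)).or (DM.eq 0 (k + 1))) i)).congr fun v => ?_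
  constructor
  · rintro ⟨⟨h1, h2⟩, h3⟩
    ext w
    rw [ZFSet.mem_pair]
    refine ⟨h3 w, ?_⟩
    rintro (rfl | rfl)
    · exact h1
    · exact h2
  · intro h
    rw [h]
    refine ⟨⟨ZFSet.mem_pair.2 (Or.inl rfl), ZFSet.mem_pair.2 (Or.inr rfl)⟩, fun w hw => ?_⟩
    exact ZFSet.mem_pair.1 hw

/-- `v i = (v j, v k)` -/
theorem dm_pair (i j k : ℕ) : DM (fun v => v i = ZFSet.pair (v j) (v k)) := by
  refine ((DM.ball (Q := fun s v => s = {v j, v j} ∨ s = {v j, v k})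
      ((dm_upair 0 (j + 1) (j + 1)).or (dm_upair 0 (j + 1) (k + 1))) i).and
    ((DM.bex (Q := fun s v => s = {v j, v j}) (dm_upair 0 (j + 1) (j + 1)) i).and
      (DM.bex (Q := fun s v => s = {v j, v k}) (dm_upair 0 (j + 1) (k + 1)) i))).congr
    fun v => ?_
  have h0 : ∀ x : ZFSet.{0}, ({x, x} : ZFSet.{0}) = {x} := by
    intro x
    ext w
    rw [ZFSet.mem_pair, ZFSet.mem_singleton, or_self]
  constructor
  · rintro ⟨h1, ⟨s, hs, h2⟩, t, ht, h3⟩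
    rw [ZFSet.pair]
    ext w
    rw [ZFSet.mem_pair]
    constructor
    · intro hw
      rcases h1 w hw with h | h
      · left
        rw [h, h0]
      · exact Or.inr h
    · rintro (h | h)
      · rw [h, ← h0, ← h2]
        exact hs
      · rw [h, ← h3]
        exact ht
  · intro h
    rw [h]
    refine ⟨fun s hs => ?_, ⟨{v j}, ?_, (h0 _).symm⟩, ⟨{v j, v k}, ?_, rfl⟩⟩
    · rw [ZFSet.pair, ZFSet.mem_pair] at hs
      rw [h0]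
      exact hs
    · rw [ZFSet.pair, ZFSet.mem_pair]
      exact Or.inl rfl
    · rw [ZFSet.pair, ZFSet.mem_pair]
      exact Or.inr rfl

/-- `v 0` is functional (with values in `v 2`), and cofinal in `v 2` with domain `v 1` -/
def Ph (v : ℕ → ZFSet.{0}) : Prop :=
  (∀ ξ, ξ ∈ v 1 → ∀ p, p ∈ v 0 → ∀ q, q ∈ v 0 → ∀ a, a ∈ v 2 → ∀ b, b ∈ v 2 →
    p = ZFSet.pair ξ a → q = ZFSet.pair ξ b → a = b) ∧
  ∀ b, b ∈ v 2 → ∃ ξ, ξ ∈ v 1 ∧ ∃ a, a ∈ v 2 ∧ ∃ p, p ∈ v 0 ∧ p = ZFSet.pair ξ a ∧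
    (b ∈ a ∨ b = a)

theorem dm_Ph : DM Ph := by
  refine DM.and ?_ ?_
  · refine DM.ball (Q := fun ξ v => ∀ p, p ∈ v 0 → ∀ q, q ∈ v 0 → ∀ a, a ∈ v 2 → ∀ b, b ∈ v 2 →
      p = ZFSet.pair ξ a → q = ZFSet.pair ξ b → a = b) ?_ 1
    refine DM.ball (Q := fun p v => ∀ q, q ∈ v 1 → ∀ a, a ∈ v 3 → ∀ b, b ∈ v 3 →
      p = ZFSet.pair (v 0) a → q = ZFSet.pair (v 0) b → a = b) ?_ 1
    refine DM.ball (Q := fun q v => ∀ a, a ∈ v 4 → ∀ b, b ∈ v 4 →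
      v 0 = ZFSet.pair (v 1) a → q = ZFSet.pair (v 1) b → a = b) ?_ 2
    refine DM.ball (Q := fun a v => ∀ b, b ∈ v 5 →
      v 1 = ZFSet.pair (v 2) a → v 0 = ZFSet.pair (v 2) b → a = b) ?_ 5
    refine DM.ball (Q := fun b v =>
      v 2 = ZFSet.pair (v 3) (v 0) → v 1 = ZFSet.pair (v 3) b → v 0 = b) ?_ 6
    exact (dm_pair 3 4 1).imp ((dm_pair 2 4 0).imp (DM.eq 1 0))
  · refine DM.ball (Q := fun b v => ∃ ξ, ξ ∈ v 1 ∧ ∃ a, a ∈ v 2 ∧ ∃ p, p ∈ v 0 ∧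
      p = ZFSet.pair ξ a ∧ (b ∈ a ∨ b = a)) ?_ 2
    refine DM.bex (Q := fun ξ v => ∃ a, a ∈ v 3 ∧ ∃ p, p ∈ v 1 ∧
      p = ZFSet.pair ξ a ∧ (v 0 ∈ a ∨ v 0 = a)) ?_ 2
    refine DM.bex (Q := fun a v => ∃ p, p ∈ v 2 ∧
      p = ZFSet.pair (v 0) a ∧ (v 1 ∈ a ∨ v 1 = a)) ?_ 4
    refine DM.bex (Q := fun p v =>
      p = ZFSet.pair (v 1) (v 0) ∧ (v 2 ∈ v 0 ∨ v 2 = v 0)) ?_ 3
    exact (dm_pair 0 2 1).and ((DM.mem 3 1).or (DM.eq 3 1))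

theorem trM_hodV (g : Ordinal.{0}) : TrM (hodV g) := fun _ hx _ hy =>
  ⟨HOD_elem hx.1 hy, (rank_lt_of_mem hy).le.trans hx.2⟩

theorem ord_mem_hodV {a g : Ordinal.{0}} (h : a ≤ g) : a.toZFSet ∈ hodV g :=
  ⟨HOD_toZFSet a, by rw [rank_toZFSet]; exact h⟩

/-- CNV -/
theorem cnv : StCNV := by
  intro c g i hc hc' hgc hg hi
  refine ⟨hg, ?_⟩
  rintro ⟨-, ρ, hρ, f, hf, hcf, hod⟩
  have hcof : ℵ₀ < c.ord.cof := reg_cof hc hc'
  -- the graph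
  have hF : graph ρ f ∈ hodV g := by
    refine ⟨hod, ?_⟩
    rw [rank_le_iff]
    intro p hp
    obtain ⟨a, ha, rfl⟩ := bf_best_mem_graph.1 hp
    rw [ZFSet.pair, rank_pair, rank_pair, rank_singleton, rank_toZFSet, rank_toZFSet]
    have h1 : Order.succ a < g := hg.succ_lt (ha.trans hρ)
    have h2 : Order.succ (f a) < g := hg.succ_lt (hf a ha)
    exact max_lt (hg.succ_lt h1) (hg.succ_lt (max_lt h1 h2))
  set v : ℕ → ZFSet.{0} := fun n => if n = 0 then graph ρ f else if n = 1 then ρ.toZFSet else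
    g.toZFSet with hv
  have hv0 : v 0 = graph ρ f := rfl
  have hv1 : v 1 = ρ.toZFSet := rfl
  have hv2 : v 2 = g.toZFSet := rfl
  have hvM : ∀ n, v n ∈ hodV g := by
    intro n
    rw [hv]
    dsimp only
    split_ifs
    · exact hF
    · exact ord_mem_hodV hρ.le
    · exact ord_mem_hodV le_rfl
  obtain ⟨φ, hφ⟩ := dm_Ph
  have hP : Ph v := by
    refine ⟨?_, ?_⟩
    · rw [hv0, hv1, hv2]
      rintro ξ - p hp q hq a - b - rfl rfl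
      obtain ⟨x, -, h1⟩ := bf_best_mem_graph.1 hp
      obtain ⟨y, -, h2⟩ := bf_best_mem_graph.1 hq
      obtain ⟨h3, h4⟩ := ZFSet.pair_injective h1
      obtain ⟨h5, h6⟩ := ZFSet.pair_injective h2
      have h7 : x = y := toZFSet_injective (h3.symm.trans h5)
      rw [h4, h6, h7]
    · rw [hv0, hv1, hv2]
      intro b hb
      obtain ⟨β, hβ, rfl⟩ := mem_toZFSet_iff.1 hb
      obtain ⟨ξ, hξ, h1⟩ := hcf β hβ
      refine ⟨ξ.toZFSet, mem_toZFSet_iff.2 ⟨ξ, hξ, rfl⟩, (f ξ).toZFSet,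
        mem_toZFSet_iff.2 ⟨f ξ, hf ξ hξ, rfl⟩, _, bf_best_mem_graph.2 ⟨ξ, hξ, rfl⟩, rfl, ?_⟩
      rcases h1.lt_or_eq with h2 | h2
      · exact Or.inl (mem_toZFSet_iff.2 ⟨β, h2, rfl⟩)
      · exact Or.inr (by rw [h2])
  have hQ : Ph (fun n => i (v n)) := by
    have h1 := (hi.elem φ v hvM).1 ((hφ _ (trM_hodV g) v hvM).2 hP)
    exact (hφ _ (trM_hodV c.ord) _ fun n => hi.maps _ (hvM n)).1 h1
  have h1 : i (v 1) = ρ.toZFSet := by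
    rw [hv1]
    exact hi.fix _ (ord_mem_hodV hρ.le) (by rw [rank_toZFSet]; exact hρ)
  have h2 : i (v 2) = c.ord.toZFSet := hi.crit
  obtain ⟨hfun, hcov⟩ := hQ
  dsimp only at hfun hcov
  rw [h1, h2] at hfun hcov
  -- the function
  have hex : ∀ ξ : Ordinal.{0}, ∃ b, b < c.ord ∧ ∀ a < c.ord, ξ < ρ →
      ZFSet.pair ξ.toZFSet a.toZFSet ∈ i (v 0) → a = b := by
    intro ξ
    by_cases h : ∃ a < c.ord, ξ < ρ ∧ ZFSet.pair ξ.toZFSet a.toZFSet ∈ i (v 0)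
    · obtain ⟨a, ha, hξ, h3⟩ := h
      refine ⟨a, ha, fun a' ha' _ h4 => ?_⟩
      exact toZFSet_injective (hfun _ (mem_toZFSet_iff.2 ⟨ξ, hξ, rfl⟩) _ h4 _ h3 _
        (mem_toZFSet_iff.2 ⟨a', ha', rfl⟩) _ (mem_toZFSet_iff.2 ⟨a, ha, rfl⟩) rfl rfl)
    · refine ⟨0, pos_of_cof hcof, fun a ha hξ h3 => ?_⟩
      exact absurd ⟨a, ha, hξ, h3⟩ h
  choose h hh using hex
  have hclub : Club {a | ∀ ξ < ρ, a ∈ Set.Ioi (h ξ)} c.ord :=
    Club.biInter hc hc' (hρ.trans hgc) fun ξ _ => club_Ioi (isSuccLimit_of_cof hcof) (hh ξ).1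
  obtain ⟨b, hb, -, hbc⟩ := hclub.1 0 (pos_of_cof hcof)
  obtain ⟨x, hx, y, hy, p, hp, rfl, h3⟩ := hcov b.toZFSet (mem_toZFSet_iff.2 ⟨b, hbc, rfl⟩)
  obtain ⟨ξ, hξ', rfl⟩ := mem_toZFSet_iff.1 hx
  obtain ⟨a, ha', rfl⟩ := mem_toZFSet_iff.1 hy
  have h4 : a = h ξ := (hh ξ).2 a ha' hξ' hp
  have h5 : h ξ < b := hb ξ hξ'
  rcases h3 with h6 | h6
  · obtain ⟨b', hb', h7⟩ := mem_toZFSet_iff.1 h6
    have h8 : b' = b := toZFSet_injective h7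
    rw [h8, h4] at hb'
    exact lt_asymm hb' h5
  · have h7 : b = a := toZFSet_injective h6
    rw [h7, h4] at h5
    exact lt_irrefl _ h5

end Pool.Agent.Helper13.HN.CNV
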